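import Pool.Agent.H34.FQ.Targets

/-!
Row AC2: the correlation of two points of the chart modulo `M`.
-/

set_option autoImplicit false

open Finset Pool.Agent.H32.RQ Pool.Agent.H34.FQ

namespace Pool.Agent.H76.HFQ

variable {R : Type} [CommRing R]

theorem all_pairs {s : ℕ} (a b : R) (x y : Fin s → R)
    (h : ∀ p : Mon s, a * nu x p + b * nu y p = 0) (i j : Fin s) :
    a * (x i * x j) + b * (y i * y j) = 0 := by
  rcases le_total i j with hij | hij
  · exact h ⟨(i, j), hij⟩
  · have := h ⟨(j, i), hij⟩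
    unfold nu at this
    simp only at this
    linear_combination this

theorem lin_pairs {s : ℕ} (T : Matrix (Fin s) (Fin s) ℤ) (a b : R) (x y : Fin s → R)
    (h : ∀ i j, a * (x i * x j) + b * (y i * y j) = 0) (i j : Fin s) :
    a * (mv T x i * mv T x j) + b * (mv T y i * mv T y j) = 0 := by
  unfold mv
  rw [Finset.sum_mul_sum, Finset.sum_mul_sum, Finset.mul_sum, Finset.mul_sum,
    ← Finset.sum_add_distrib]
  refine Finset.sum_eq_zero fun k _ => ?_
  rw [Finset.mul_sum, Finset.mul_sum, ← Finset.sum_add_distrib]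
  refine Finset.sum_eq_zero fun l _ => ?_
  linear_combination (T i k : R) * (T j l : R) * h k l

theorem mv_inv {s : ℕ} (T Ti : Matrix (Fin s) (Fin s) ℤ) (h : Ti * T = 1) (x : Fin s → R) :
    mv Ti (mv T x) = x := by
  funext i
  unfold mv
  have h1 : ∀ k, ∑ j, (Ti i j : R) * (T j k : R) = if i = k then 1 else 0 := by
    intro k
    have h3 : ∑ j, Ti i j * T j k = if i = k then (1 : ℤ) else 0 := by
      have := congrFun (congrFun h i) k
      rw [Matrix.mul_apply, Matrix.one_apply] at this
      exact this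
    have h2 : ((∑ j, Ti i j * T j k : ℤ) : R) = ((if i = k then (1 : ℤ) else 0 : ℤ) : R) := by
      rw [h3]
    push_cast at h2
    exact h2
  calc ∑ j, (Ti i j : R) * ∑ k, (T j k : R) * x k
      = ∑ k, (∑ j, (Ti i j : R) * (T j k : R)) * x k := by
        rw [Finset.sum_congr rfl fun j _ => Finset.mul_sum _ _ _, Finset.sum_comm]
        refine Finset.sum_congr rfl fun k _ => ?_
        rw [Finset.sum_mul]
        exact Finset.sum_congr rfl fun j _ => by ring
    _ = x i := by
        rw [Finset.sum_eq_single i]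
        · rw [h1, if_pos rfl, one_mul]
        · intro k _ hk
          rw [h1, if_neg (Ne.symm hk), zero_mul]
        · intro h
          exact absurd (Finset.mem_univ _) h

theorem mul_qf {s : ℕ} (a : R) (f : Mon s → R) (w w' : Fin s → R) (h : ∀ i, a * w i = a * w' i) :
    a * qf f w = a * qf f w' := by
  unfold qf
  rw [Finset.mul_sum, Finset.mul_sum]
  refine Finset.sum_congr rfl fun p _ => ?_
  linear_combination f p * w p.1.2 * h p.1.1 + f p * w' p.1.1 * h p.1.2

theorem mul_mv {s : ℕ} (T : Matrix (Fin s) (Fin s) ℤ) (a : R) (w w' : Fin s → R)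
    (h : ∀ i, a * w i = a * w' i) (i : Fin s) : a * mv T w i = a * mv T w' i := by
  unfold mv
  rw [Finset.mul_sum, Finset.mul_sum]
  refine Finset.sum_congr rfl fun p _ => ?_
  linear_combination (T i p : R) * h p

theorem pf_AC2 : T_AC2 := by
  classical
  intro n F N M _ u u' hmu
  have hsq : IsUnit ((N.mu : ZMod M) * (N.mu : ZMod M)) := hmu.mul hmu
  have key : ∀ q : ZMod M × ZMod M, (∀ p : Mon (n + 2),
      q.1 * nu (xt N 1 u) p + q.2 * nu (xt N 1 u') p = 0) →
      q.2 = -q.1 ∧ ∀ i, q.1 * (u i - u' i) = 0 := by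
    intro q hq
    have h1 := all_pairs q.1 q.2 _ _ hq
    have h2 := lin_pairs N.Ti q.1 q.2 _ _ h1
    unfold xt at h2
    rw [mv_inv N.T N.Ti N.h2, mv_inv N.T N.Ti N.h2] at h2
    have h3 := h2 0 0
    have h4 : (q.1 + q.2) * ((N.mu : ZMod M) * (N.mu : ZMod M)) = 0 := by
      have : ∀ (y : ZMod M) (v : Fin n → ZMod M),
        pt ((N.mu : ZMod M) * 1 ^ 2) y v 0 = (N.mu : ZMod M) := by
        intro y v
        change (N.mu : ZMod M) * 1 ^ 2 = _
        ring
      rw [this, this] at h3
      linear_combination h3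
    have h5 : q.1 + q.2 = 0 := (hsq.mul_left_eq_zero).1 h4
    have h6 : q.2 = -q.1 := by linear_combination h5
    refine ⟨h6, fun i => ?_⟩
    have h7 := h2 0 i.succ.succ
    have h8 : q.1 * (u i - u' i) * ((N.mu : ZMod M) * (N.mu : ZMod M)) = 0 := by
      have e1 : ∀ (y : ZMod M) (v : Fin n → ZMod M),
        pt ((N.mu : ZMod M) * 1 ^ 2) y v 0 = (N.mu : ZMod M) := by
        intro y v
        change (N.mu : ZMod M) * 1 ^ 2 = _
        ring
      have e2 : ∀ (c y : ZMod M) (v : Fin n → ZMod M), pt c y v i.succ.succ = v i :=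
        fun c y v => rfl
      rw [e1, e1, e2, e2, h6] at h7
      linear_combination h7
    exact (hsq.mul_left_eq_zero).1 h8
  refine Finset.card_bij (fun q _ => q.1) ?_ ?_ ?_
  · intro q hq
    exact Finset.mem_filter.2 ⟨Finset.mem_univ _, (key q (Finset.mem_filter.1 hq).2).2⟩
  · intro q hq q' hq' h
    have h1 := (key q (Finset.mem_filter.1 hq).2).1
    have h2 := (key q' (Finset.mem_filter.1 hq').2).1
    exact Prod.ext h (by rw [h1, h2, h])
  · intro a ha
    have ha' := (Finset.mem_filter.1 ha).2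
    refine ⟨(a, -a), ?_, rfl⟩
    refine Finset.mem_filter.2 ⟨Finset.mem_univ _, fun p => ?_⟩
    have h1 : ∀ i, a * cv (1 : ZMod M) u i = a * cv 1 u' i := by
      intro i
      refine Fin.cases ?_ (fun k => ?_) i
      · rfl
      · change a * u k = a * u' k
        linear_combination ha' k
    have h2 := mul_qf a (cf (ZMod M) N.q) _ _ h1
    have h3 : ∀ i, a * pt ((N.mu : ZMod M) * 1 ^ 2) (-qf (cf (ZMod M) N.q) (cv 1 u))
        (fun i => (N.mu : ZMod M) * 1 * u i) i = a * pt ((N.mu : ZMod M) * 1 ^ 2)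
          (-qf (cf (ZMod M) N.q) (cv 1 u')) (fun i => (N.mu : ZMod M) * 1 * u' i) i := by
      intro i
      refine Fin.cases ?_ (fun k => ?_) i
      · rfl
      · refine Fin.cases ?_ (fun k => ?_) k
        · change a * -_ = a * -_
          linear_combination -h2
        · change a * ((N.mu : ZMod M) * 1 * u k) = a * ((N.mu : ZMod M) * 1 * u' k)
          linear_combination (N.mu : ZMod M) * ha' k
    have h4 : ∀ i, a * xt N 1 u i = a * xt N 1 u' i := fun i => mul_mv N.T a _ _ h3 i
    change a * nu _ p + -a * nu _ p = 0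
    unfold nu
    linear_combination xt N 1 u p.1.2 * h4 p.1.1 + xt N 1 u' p.1.1 * h4 p.1.2

end Pool.Agent.H76.HFQ
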