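import Pool.Agent.H34.FQ.Targets

/-!
Row CHE: the number of the primes in `(X, 4 X]`.
-/

set_option autoImplicit false

open Finset Pool.Agent.H32.RQ Pool.Agent.H34.FQ

namespace Pool.Agent.H76.HFQ

theorem theta_sub (X : ℕ) : Chebyshev.theta (4 * X : ℕ) =
    Chebyshev.theta X + ∑ p ∈ (Finset.Ioc X (4 * X)).filter Nat.Prime, Real.log p := by
  unfold Chebyshev.theta
  rw [Nat.floor_natCast, Nat.floor_natCast]
  have h1 : Finset.Ioc 0 (4 * X) = Finset.Ioc 0 X ∪ Finset.Ioc X (4 * X) :=
    (Finset.Ioc_union_Ioc_eq_Ioc (Nat.zero_le _) (by omega)).symm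
  rw [h1, Finset.filter_union, Finset.sum_union]
  refine Finset.disjoint_filter_filter (Finset.disjoint_left.2 fun a ha hb => ?_)
  have h2 := Finset.mem_Ioc.1 ha
  have h3 := Finset.mem_Ioc.1 hb
  omega

theorem pf_CHE : T_CHE := by
  have h0 : ∀ᶠ x : ℝ in Filter.atTop, Real.log x ≤ 0.02 * Real.sqrt x := by
    have h := isLittleO_log_rpow_atTop (r := 1 / 2) (by norm_num)
    have h1 := h.bound (c := 0.02) (by norm_num)
    filter_upwards [h1, Filter.eventually_ge_atTop 1] with x hx hx1
    rw [Real.norm_of_nonneg (Real.log_nonneg hx1), Real.norm_of_nonneg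
      (Real.rpow_nonneg (by linarith) _), ← Real.sqrt_eq_rpow] at hx
    exact hx
  obtain ⟨x₁, hx₁⟩ := Filter.eventually_atTop.1 h0
  obtain ⟨X₁, hX₁⟩ : ∃ X₁ : ℕ, X₁ = max ⌈x₁⌉₊ 5 := ⟨_, rfl⟩
  have hX5 : 5 ≤ X₁ := by rw [hX₁]; exact le_max_right _ _
  have hXx : x₁ ≤ X₁ := by
    rw [hX₁]
    exact (Nat.le_ceil x₁).trans (by exact_mod_cast le_max_left _ _)
  have hlog2 : (0.6931471803 : ℝ) < Real.log 2 := Real.log_two_gt_d9
  have hlog4 : Real.log 4 = 2 * Real.log 2 := by
    rw [show (4 : ℝ) = 2 ^ 2 by norm_num, Real.log_pow]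
    push_cast
    ring
  refine ⟨min (1 / 3) (Real.log 2 / X₁), 8 * Real.log 2, ?_, by linarith, ?_⟩
  · have : (0 : ℝ) < X₁ := by exact_mod_cast (by omega : 0 < X₁)
    exact lt_min (by norm_num) (div_pos (by linarith) this)
  intro X hX
  have hXr : (2 : ℝ) ≤ X := by exact_mod_cast hX
  have hlX : Real.log 2 ≤ Real.log X := Real.log_le_log (by norm_num) hXr
  have hlX0 : 0 < Real.log X := by linarith
  obtain ⟨P, hP⟩ : ∃ P : Finset ℕ, P = (Finset.Ioc X (4 * X)).filter Nat.Prime := ⟨_, rfl⟩
  rw [← hP]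
  have hs := theta_sub X
  rw [← hP] at hs
  have hmem : ∀ p ∈ P, X < p ∧ p ≤ 4 * X ∧ p.Prime := by
    intro p hp
    rw [hP, Finset.mem_filter, Finset.mem_Ioc] at hp
    exact ⟨hp.1.1, hp.1.2, hp.2⟩
  constructor
  · rcases lt_or_ge X X₁ with hlt | hge
    · -- Bertrand
      obtain ⟨p, hp, h1, h2⟩ := Nat.exists_prime_lt_and_le_two_mul X (by omega)
      have h3 : p ∈ P := by
        rw [hP, Finset.mem_filter, Finset.mem_Ioc]
        exact ⟨⟨h1, by omega⟩, hp⟩
      have h4 : (1 : ℝ) ≤ P.card := by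
        exact_mod_cast Finset.card_pos.2 ⟨p, h3⟩
      have hX1r : (0 : ℝ) < X₁ := by exact_mod_cast (by omega : 0 < X₁)
      have hXX : (X : ℝ) ≤ X₁ := by exact_mod_cast hlt.le
      refine le_trans ?_ h4
      rw [div_le_one hlX0]
      calc min (1 / 3) (Real.log 2 / X₁) * X ≤ (Real.log 2 / X₁) * X₁ := by
            refine mul_le_mul (min_le_right _ _) hXX (by linarith) ?_
            exact div_nonneg (by linarith) hX1r.le
        _ = Real.log 2 := div_mul_cancel₀ _ hX1r.ne'
        _ ≤ Real.log X := hlX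
    · have hX5r : (5 : ℝ) ≤ X := by exact_mod_cast hX5.trans hge
      have hx := hx₁ X (hXx.trans (by exact_mod_cast hge))
      have hg := Chebyshev.theta_ge (4 * X)
      have hu := Chebyshev.theta_le_log4_mul_x (x := (X : ℝ)) (by linarith)
      have hl4 : Real.log ((4 * X : ℕ) : ℝ) ≤ 2 * Real.log X := by
        have : 2 * Real.log X = Real.log ((X : ℝ) ^ 2) := by
          rw [Real.log_pow]
          push_cast
          ring
        rw [this]
        push_cast
        refine Real.log_le_log (by linarith) (by nlinarith)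
      have hl5 : Real.log ((4 * X : ℕ) + 1 : ℝ) ≤ 2 * Real.log X := by
        have : 2 * Real.log X = Real.log ((X : ℝ) ^ 2) := by
          rw [Real.log_pow]
          push_cast
          ring
        rw [this]
        push_cast
        refine Real.log_le_log (by linarith) (by nlinarith)
      have hsq : Real.sqrt ((4 * X : ℕ) : ℝ) = 2 * Real.sqrt X := by
        push_cast
        rw [Real.sqrt_mul (by norm_num), show (4 : ℝ) = 2 ^ 2 by norm_num,
          Real.sqrt_sq (by norm_num)]
      rw [hsq] at hg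
      have hsX : Real.sqrt X * Real.sqrt X = X := Real.mul_self_sqrt (by linarith)
      have hs1 : 1 ≤ Real.sqrt X := by
        rw [Real.one_le_sqrt]
        linarith
      have hsum : (X : ℝ) ≤ ∑ p ∈ P, Real.log p := by
        have h1 : 2 * (2 * Real.sqrt X) * Real.log ((4 * X : ℕ) : ℝ) ≤
            2 * (2 * Real.sqrt X) * (2 * (0.02 * Real.sqrt X)) :=
          mul_le_mul_of_nonneg_left (hl4.trans (by linarith)) (by linarith)
        have h2 : Real.sqrt X ≤ X := by nlinarith
        have h3 : ((4 * X : ℕ) : ℝ) = 4 * X := by push_cast; ring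
        rw [h3] at hg h1 hs
        have h4 : (4 * (X : ℝ)) * Real.log 2 - Real.log (4 * X + 1) -
            2 * (2 * Real.sqrt X) * Real.log (4 * X) ≤ Chebyshev.theta X +
              ∑ p ∈ P, Real.log p := by
          rw [← hs]
          exact hg
        rw [h3] at hl5
        rw [hlog4] at hu
        have h6 : 2 * (2 * Real.sqrt X) * (2 * (0.02 * Real.sqrt X)) = 0.16 * X := by
          rw [← hsX]
          ring_nf
          rw [Real.sq_sqrt (by positivity)]
        rw [h6] at h1
        have h7 : 2 * Real.log X ≤ 0.04 * X := by linarith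
        have h8 : (X : ℝ) * 0.6931471803 ≤ X * Real.log 2 :=
          mul_le_mul_of_nonneg_left hlog2.le (by linarith)
        nlinarith
      have h4 : ∑ p ∈ P, Real.log p ≤ P.card * (3 * Real.log X) := by
        rw [← nsmul_eq_mul]
        refine Finset.sum_le_card_nsmul _ _ _ fun p hp => ?_
        obtain ⟨h1, h2, h3⟩ := hmem p hp
        have : 3 * Real.log X = Real.log ((X : ℝ) ^ 3) := by
          rw [Real.log_pow]
          push_cast
          ring
        rw [this]
        have hpr : (p : ℝ) ≤ 4 * X := by exact_mod_cast h2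
        refine Real.log_le_log (by exact_mod_cast h3.pos) (hpr.trans ?_)
        have h9 : (4 : ℝ) ≤ (X : ℝ) ^ 2 := by nlinarith
        calc (4 : ℝ) * X ≤ (X : ℝ) ^ 2 * X := mul_le_mul_of_nonneg_right h9 (by linarith)
          _ = (X : ℝ) ^ 3 := by ring
      rw [div_le_iff₀ hlX0]
      have h5 : min (1 / 3) (Real.log 2 / X₁) * X ≤ 1 / 3 * X :=
        mul_le_mul_of_nonneg_right (min_le_left _ _) (by linarith)
      nlinarith
  · rw [le_div_iff₀ hlX0]
    have h1 : (P.card : ℝ) * Real.log X ≤ ∑ p ∈ P, Real.log p := by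
      rw [← nsmul_eq_mul]
      refine Finset.card_nsmul_le_sum _ _ _ fun p hp => ?_
      obtain ⟨h1, h2, h3⟩ := hmem p hp
      exact Real.log_le_log (by linarith) (by exact_mod_cast h1.le)
    have hu := Chebyshev.theta_le_log4_mul_x (x := ((4 * X : ℕ) : ℝ)) (Nat.cast_nonneg _)
    rw [hlog4, hs] at hu
    have := Chebyshev.theta_nonneg (X : ℝ)
    push_cast at hu
    linarith

end Pool.Agent.H76.HFQ
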