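import Pool.Agent.H34.FQ.Targets

/-!
Row PAL: vectors which are proportional to a given vector modulo a prime power.
-/

set_option autoImplicit false

open Finset Pool.Agent.H32.RQ Pool.Agent.H34.FQ

namespace Pool.Agent.H76.HFQ

theorem ker_card (p t d : ℕ) [NeZero (p ^ t)] (hp : 0 < p) (hd : d ≤ t) :
    (univ.filter fun u : ZMod (p ^ t) => u * (p : ZMod (p ^ t)) ^ d = 0).card ≤ p ^ d := by
  classical
  rw [← Finset.card_range (p ^ d)]
  refine Finset.card_le_card_of_injOn (fun u => u.val / p ^ (t - d)) ?_ ?_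
  · intro u hu
    rw [Finset.coe_range, Set.mem_Iio]
    have h1 : u.val < p ^ t := ZMod.val_lt u
    rw [Nat.div_lt_iff_lt_mul (pow_pos hp _), ← pow_add, Nat.add_sub_cancel' hd]
    exact h1
  · have key : ∀ u : ZMod (p ^ t), u * (p : ZMod (p ^ t)) ^ d = 0 → p ^ (t - d) ∣ u.val := by
      intro u hu
      have h1 : ((u.val * p ^ d : ℕ) : ZMod (p ^ t)) = 0 := by
        push_cast
        rw [ZMod.natCast_zmod_val]
        exact hu
      rw [ZMod.natCast_eq_zero_iff] at h1
      have h2 : p ^ t = p ^ (t - d) * p ^ d := by rw [← pow_add, Nat.sub_add_cancel hd]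
      exact Nat.dvd_of_mul_dvd_mul_right (pow_pos hp d) ((dvd_of_eq h2.symm).trans h1)
    intro u hu v hv huv
    have hu' := key u (Finset.mem_filter.1 (Finset.mem_coe.1 hu)).2
    have hv' := key v (Finset.mem_filter.1 (Finset.mem_coe.1 hv)).2
    have h3 : u.val = v.val := by
      rw [← Nat.div_mul_cancel hu', ← Nat.div_mul_cancel hv']
      exact congrArg (fun z => z * p ^ (t - d)) huv
    exact ZMod.val_injective _ h3

theorem sol_card (p t d : ℕ) [NeZero (p ^ t)] (hp : 0 < p) (hd : d ≤ t) (v c : ZMod (p ^ t))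
    (hv : IsUnit v) :
    (univ.filter fun u : ZMod (p ^ t) => u * ((p : ZMod (p ^ t)) ^ d * v) = c).card ≤ p ^ d := by
  classical
  rcases Finset.eq_empty_or_nonempty
    (univ.filter fun u : ZMod (p ^ t) => u * ((p : ZMod (p ^ t)) ^ d * v) = c) with h | h
  · rw [h, Finset.card_empty]
    exact Nat.zero_le _
  · obtain ⟨u₀, hu₀⟩ := h
    have h0 := (Finset.mem_filter.1 hu₀).2
    refine (Finset.card_le_card_of_injOn (fun u => u - u₀) ?_ ?_).trans (ker_card p t d hp hd)
    · intro u hu
      have h1 := (Finset.mem_filter.1 (Finset.mem_coe.1 hu)).2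
      refine Finset.mem_coe.2 (Finset.mem_filter.2 ⟨Finset.mem_univ _, ?_⟩)
      have h2 : ((u - u₀) * (p : ZMod (p ^ t)) ^ d) * v = 0 := by
        linear_combination h1 - h0
      exact (hv.mul_left_eq_zero).1 h2
    · intro u _ w _ h
      exact sub_left_injective h

theorem pf_PAL : T_PAL := by
  classical
  intro s p t e _ g hp hg
  obtain ⟨j, d, hde, hdt, v, hv, hgj⟩ := hg
  have h1 : (Finset.univ.filter fun w : Fin s → ZMod (p ^ t) => ∀ i j, mnr w g i j = 0) ⊆
      Finset.univ.biUnion fun a : ZMod (p ^ t) => Fintype.piFinset fun i =>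
        if i = j then {a} else
        (univ.filter fun u : ZMod (p ^ t) => u * ((p : ZMod (p ^ t)) ^ d * v) = a * g i) := by
    intro w hw
    have hw' := (Finset.mem_filter.1 hw).2
    refine Finset.mem_biUnion.2 ⟨w j, Finset.mem_univ _, ?_⟩
    rw [Fintype.mem_piFinset]
    intro i
    split_ifs with h
    · rw [h, Finset.mem_singleton]
    · refine Finset.mem_filter.2 ⟨Finset.mem_univ _, ?_⟩
      rw [← hgj]
      have := hw' i j
      unfold mnr at this
      exact sub_eq_zero.1 this
  have h2 := (Finset.card_le_card h1).trans Finset.card_biUnion_le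
  have hpp : 1 ≤ p := hp.one_lt.le
  have h3 : ∀ a : ZMod (p ^ t), (Fintype.piFinset fun i => if i = j then {a} else
        (univ.filter fun u : ZMod (p ^ t) => u * ((p : ZMod (p ^ t)) ^ d * v) = a * g i)).card ≤
      p ^ (e * s) := by
    intro a
    rw [Fintype.card_piFinset]
    have : p ^ (e * s) = ∏ _i : Fin s, p ^ e := by
      rw [Finset.prod_const, Finset.card_univ, Fintype.card_fin, pow_mul]
    rw [this]
    refine Finset.prod_le_prod' fun i _ => ?_
    split_ifs with h
    · rw [Finset.card_singleton]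
      exact Nat.one_le_pow _ _ hpp
    · exact (sol_card p t d hp.pos hdt.le v _ hv).trans (Nat.pow_le_pow_right hpp hde)
  refine h2.trans ((Finset.sum_le_sum fun a _ => h3 a).trans (le_of_eq ?_))
  rw [Finset.sum_const, Finset.card_univ, ZMod.card, smul_eq_mul, ← pow_add]

end Pool.Agent.H76.HFQ
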