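import Pool.Agent.H76.HFQ.FIBR
import Pool.Agent.H47.RQ.PFX

/-!
Row PFG: the value and the gradient at a vector are independent.
-/

set_option autoImplicit false

open Finset Pool.Agent.H32.RQ Pool.Agent.H34.FQ Pool.Agent.H47.RQ

namespace Pool.Agent.H76.HFQ

/-- the value and the derivatives -/
def vgr {R : Type} [CommRing R] {s : ℕ} (i₀ : Fin s) (x : Fin s → R) :
    (Mon s → R) →+ (Fin s → R) where
  toFun f := fun l => if l = i₀ then qf f x else dq f x l
  map_zero' := by
    funext l
    split_ifs
    · unfold qf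
      simp
    · unfold dq
      simp
  map_add' f g := by
    funext l
    rw [Pi.add_apply]
    split_ifs
    · unfold qf
      rw [← Finset.sum_add_distrib]
      exact Finset.sum_congr rfl fun p _ => add_mul _ _ _
    · unfold dq
      rw [← Finset.sum_add_distrib]
      exact Finset.sum_congr rfl fun p _ => add_mul _ _ _

theorem vgr_surj {R : Type} [CommRing R] {s : ℕ} (i₀ : Fin s) (x : Fin s → R) (hx : x i₀ = 1) :
    Function.Surjective (vgr i₀ x) := by
  classical
  intro c
  obtain ⟨g, hg⟩ : ∃ g : Fin s → R, g = fun l => if l = i₀ then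
    c i₀ - ∑ j ∈ univ.erase i₀, c j * x j else c l := ⟨_, rfl⟩
  obtain ⟨f, hf⟩ : ∃ f : Mon s → R, f = Function.extend (mo i₀) g 0 := ⟨_, rfl⟩
  have hf1 : ∀ l, f (mo i₀ l) = g l := by
    intro l
    rw [hf]
    exact (mo_inj i₀).extend_apply g 0 l
  have hf2 : ∀ p, p ∉ univ.image (mo i₀) → f p = 0 := by
    intro p hp
    rw [hf, Function.extend_apply']
    · rfl
    · rintro ⟨a, ha⟩
      exact hp (Finset.mem_image.2 ⟨a, Finset.mem_univ _, ha⟩)
  refine ⟨f, ?_⟩
  funext l
  change (if l = i₀ then qf f x else dq f x l) = c l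
  split_ifs with h
  · rw [h]
    unfold qf
    rw [sum_mo i₀ f _ hf2]
    have h1 : ∀ l, f (mo i₀ l) * (x (mo i₀ l).1.1 * x (mo i₀ l).1.2) = g l * x l := by
      intro l
      rw [hf1]
      congr 1
      change x (min i₀ l) * x (max i₀ l) = x l
      rcases le_total i₀ l with h | h
      · rw [min_eq_left h, max_eq_right h, hx, one_mul]
      · rw [min_eq_right h, max_eq_left h, hx, mul_one]
    rw [Finset.sum_congr rfl fun l _ => h1 l, ← Finset.add_sum_erase _ _ (Finset.mem_univ i₀),
      hx, mul_one]
    have h2 : ∑ j ∈ univ.erase i₀, g j * x j = ∑ j ∈ univ.erase i₀, c j * x j := by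
      refine Finset.sum_congr rfl fun j hj => ?_
      rw [hg]
      simp only [if_neg (Finset.ne_of_mem_erase hj)]
    rw [h2]
    have h3 : g i₀ = c i₀ - ∑ j ∈ univ.erase i₀, c j * x j := by
      rw [hg]
      simp only [if_true]
    rw [h3]
    ring
  · rw [dq_mo i₀ f x hx hf2 l h, hf1, hg]
    simp only [if_neg h]

theorem pf_PFG : T_PFG := by
  intro s M _ i₀ x hx a b
  have h1 := fib_card (vgr i₀ x) (vgr_surj i₀ x hx) (fun l => if l = i₀ then a else b l)
  rw [Fintype.card_fun, Fintype.card_fun, ZMod.card, Fintype.card_fin] at h1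
  rw [← h1]
  congr 2
  refine Finset.filter_congr fun f _ => ?_
  constructor
  · rintro ⟨h2, h3⟩
    funext l
    change (if l = i₀ then qf f x else dq f x l) = _
    split_ifs with h
    · exact h2
    · exact h3 l h
  · intro h2
    constructor
    · have := congrFun h2 i₀
      change (if i₀ = i₀ then qf f x else dq f x i₀) = (if i₀ = i₀ then a else b i₀) at this
      rwa [if_pos rfl, if_pos rfl] at this
    · intro l hl
      have := congrFun h2 l
      change (if l = i₀ then qf f x else dq f x l) = (if l = i₀ then a else b l) at this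
      rwa [if_neg hl, if_neg hl] at this

end Pool.Agent.H76.HFQ
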