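import Pool.Agent.H76.HFQ.FIBR

/-!
Row PN3: the value at a primitive vector is rarely divisible by `M`.
-/

set_option autoImplicit false

open Finset Pool.Agent.H32.RQ Pool.Agent.H34.FQ

namespace Pool.Agent.H76.HFQ

theorem pf_PN3 (hTB1 : T_TB1) : T_PN3 := by
  classical
  intro s M A z hz hM hA
  have : NeZero M := ⟨by omega⟩
  have hz' : Prm (fun i => (z i : ZMod M)) := by
    obtain ⟨a, ha⟩ := hz
    refine ⟨fun i => (a i : ZMod M), ?_⟩
    have := congrArg (fun u : ℤ => (u : ZMod M)) ha
    push_cast at this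
    exact this
  have h1 := hTB1 s A M (univ.filter fun f : Mon s → ZMod M => qf f (fun i => (z i : ZMod M)) = 0)
    hA
  have h2 := fib_card (qfL (fun i => (z i : ZMod M))).toAddMonoidHom
    (qfL_surj (fun i => (z i : ZMod M)) hz') 0
  have h3 : (univ.filter fun g => (qfL (fun i => (z i : ZMod M))).toAddMonoidHom g = 0) =
      (univ.filter fun f : Mon s → ZMod M => qf f (fun i => (z i : ZMod M)) = 0) := rfl
  rw [h3, ZMod.card, Fintype.card_fun, ZMod.card] at h2
  have h4 : ((b1 s A).filter fun f => cf (ZMod M) f ∈ (univ.filter fun f : Mon s → ZMod M =>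
      qf f (fun i => (z i : ZMod M)) = 0)) = ((b1 s A).filter fun f => (M : ℤ) ∣ qf f z) := by
    refine Finset.filter_congr fun f _ => ?_
    rw [Finset.mem_filter, ← ZMod.intCast_zmod_eq_zero_iff_dvd]
    have : ((qf f z : ℤ) : ZMod M) = qf (cf (ZMod M) f) (fun i => (z i : ZMod M)) := by
      unfold qf cf
      push_cast
      rfl
    rw [this]
    simp
  rw [h4] at h1
  have hpos : 0 < M ^ md s := pow_pos (by omega) _
  refine Nat.le_of_mul_le_mul_right ?_ hpos
  calc _ = ((b1 s A).filter fun f => (M : ℤ) ∣ qf f z).card * M ^ md s * M := by ring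
    _ ≤ (2 ^ md s * (2 * A + 1) ^ md s * (univ.filter fun f : Mon s → ZMod M =>
        qf f (fun i => (z i : ZMod M)) = 0).card) * M := Nat.mul_le_mul_right _ h1
    _ = 2 ^ md s * (2 * A + 1) ^ md s * M ^ md s := by rw [mul_assoc, h2]

end Pool.Agent.H76.HFQ
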