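import Pool.Agent.H34.FQ.Targets

/-!
Row PNG: forms whose restriction to a quadric is singular modulo a prime power.
-/

set_option autoImplicit false

open Finset Pool.Agent.H32.RQ Pool.Agent.H34.FQ

namespace Pool.Agent.H76.HFQ

section
variable {R : Type} [CommRing R] {s : ℕ}

theorem qf_sc (F : Mon s → R) (c : R) (x : Fin s → R) :
    qf F (fun i => c * x i) = c ^ 2 * qf F x := by
  unfold qf
  rw [Finset.mul_sum]
  exact Finset.sum_congr rfl fun p _ => by ring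

theorem dq_sc (F : Mon s → R) (c : R) (x : Fin s → R) (j : Fin s) :
    dq F (fun i => c * x i) j = c * dq F x j := by
  unfold dq
  rw [Finset.mul_sum]
  refine Finset.sum_congr rfl fun p _ => ?_
  split_ifs <;> ring

end

theorem pf_PNG (hQZC : T_QZC) (hPAL : T_PAL) (hPFG : T_PFG) : T_PNG := by
  classical
  intro s p t e _ F hs hp
  obtain ⟨S, hS⟩ : ∃ S : Fin s → Finset (Fin s → ZMod (p ^ t)), S = fun i₀ =>
    Finset.univ.filter fun x : Fin s → ZMod (p ^ t) => x i₀ = 1 ∧ qf F x = 0 ∧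
      ∃ j, ∃ d : ℕ, d ≤ e ∧ d < t ∧ ∃ v : ZMod (p ^ t), IsUnit v ∧
        dq F x j = (p : ZMod (p ^ t)) ^ d * v := ⟨_, rfl⟩
  obtain ⟨E, hE⟩ : ∃ E : (Fin s → ZMod (p ^ t)) → Finset (Mon s → ZMod (p ^ t)), E = fun x =>
    Finset.univ.filter fun f : Mon s → ZMod (p ^ t) => qf f x = 0 ∧ ∀ j l, jm ![F, f] x j l = 0 :=
    ⟨_, rfl⟩
  have hScard : ∀ i₀, (S i₀).card ≤ s * p ^ (2 * e + 1) * (p ^ t) ^ (s - 2) := by
    intro i₀
    rw [hS]
    exact hQZC s p t e F i₀ hs hp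
  have hEcard : ∀ i₀, ∀ x ∈ S i₀, (E x).card * (p ^ t) ^ s ≤ p ^ (t + e * s) * (p ^ t) ^ md s := by
    intro i₀ x hx
    rw [hS] at hx
    obtain ⟨-, hx1, hx2, hx3⟩ := Finset.mem_filter.1 hx
    have hW := hPAL s p t e (fun j => dq F x j) hp hx3
    have h1 : E x ⊆ (Finset.univ.filter fun w : Fin s → ZMod (p ^ t) =>
        ∀ i j, mnr w (fun j => dq F x j) i j = 0).biUnion fun w =>
          Finset.univ.filter fun f : Mon s → ZMod (p ^ t) => qf f x = 0 ∧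
            ∀ l, l ≠ i₀ → dq f x l = w l := by
      intro f hf
      rw [hE] at hf
      obtain ⟨-, hf1, hf2⟩ := Finset.mem_filter.1 hf
      refine Finset.mem_biUnion.2 ⟨fun l => dq f x l, Finset.mem_filter.2 ⟨Finset.mem_univ _,
        fun i j => ?_⟩, Finset.mem_filter.2 ⟨Finset.mem_univ _, hf1, fun l _ => rfl⟩⟩
      have := hf2 j i
      unfold jm at this
      unfold mnr
      change dq F x j * dq f x i - dq F x i * dq f x j = 0 at this
      linear_combination this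
    have h2 := (Finset.card_le_card h1).trans Finset.card_biUnion_le
    have h3 := Nat.mul_le_mul_right ((p ^ t) ^ s) h2
    refine h3.trans ?_
    rw [Finset.sum_mul, Finset.sum_congr rfl fun w _ => hPFG s (p ^ t) i₀ x hx1 0 w,
      Finset.sum_const, smul_eq_mul]
    exact Nat.mul_le_mul_right _ hW
  have hsub : (Finset.univ.filter fun f : Mon s → ZMod (p ^ t) => ∃ x : Fin s → ZMod (p ^ t),
      (∃ i, IsUnit (x i)) ∧ qf F x = 0 ∧ qf f x = 0 ∧
      (∃ j, ∃ d : ℕ, d ≤ e ∧ d < t ∧ ∃ v : ZMod (p ^ t), IsUnit v ∧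
        dq F x j = (p : ZMod (p ^ t)) ^ d * v) ∧
      ∀ j l, jm ![F, f] x j l = 0) ⊆ Finset.univ.biUnion fun i₀ => (S i₀).biUnion E := by
    intro f hf
    obtain ⟨-, x, ⟨i₀, hi₀⟩, h1, h2, ⟨j, d, hde, hdt, v, hv, hj⟩, h3⟩ := Finset.mem_filter.1 hf
    obtain ⟨u, hu⟩ := hi₀
    refine Finset.mem_biUnion.2 ⟨i₀, Finset.mem_univ _, Finset.mem_biUnion.2
      ⟨fun i => ((u⁻¹ : (ZMod (p ^ t))ˣ) : ZMod (p ^ t)) * x i, ?_, ?_⟩⟩
    · rw [hS]
      refine Finset.mem_filter.2 ⟨Finset.mem_univ _, ?_, ?_, j, d, hde, hdt,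
        ((u⁻¹ : (ZMod (p ^ t))ˣ) : ZMod (p ^ t)) * v, (Units.isUnit _).mul hv, ?_⟩
      · change ((u⁻¹ : (ZMod (p ^ t))ˣ) : ZMod (p ^ t)) * x i₀ = 1
        rw [← hu, Units.inv_mul]
      · rw [qf_sc, h1, mul_zero]
      · rw [dq_sc, hj]
        ring
    · rw [hE]
      refine Finset.mem_filter.2 ⟨Finset.mem_univ _, ?_, fun a b => ?_⟩
      · rw [qf_sc, h2, mul_zero]
      · have := h3 a b
        unfold jm at this ⊢
        change dq F x a * dq f x b - dq F x b * dq f x a = 0 at this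
        change dq F _ a * dq f _ b - dq F _ b * dq f _ a = 0
        rw [dq_sc, dq_sc, dq_sc, dq_sc]
        linear_combination (((u⁻¹ : (ZMod (p ^ t))ˣ) : ZMod (p ^ t))) ^ 2 * this
  obtain ⟨G, hG⟩ : ∃ G, G = (Finset.univ.filter fun f : Mon s → ZMod (p ^ t) =>
      ∃ x : Fin s → ZMod (p ^ t), (∃ i, IsUnit (x i)) ∧ qf F x = 0 ∧ qf f x = 0 ∧
      (∃ j, ∃ d : ℕ, d ≤ e ∧ d < t ∧ ∃ v : ZMod (p ^ t), IsUnit v ∧
        dq F x j = (p : ZMod (p ^ t)) ^ d * v) ∧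
      ∀ j l, jm ![F, f] x j l = 0) := ⟨_, rfl⟩
  rw [← hG] at hsub ⊢
  have h4 : G.card ≤ ∑ i₀, ∑ x ∈ S i₀, (E x).card :=
    (Finset.card_le_card hsub).trans (Finset.card_biUnion_le.trans
      (Finset.sum_le_sum fun i₀ _ => Finset.card_biUnion_le))
  have hpos : 0 < (p ^ t) ^ (s - 1) := pow_pos (pow_pos hp.pos _) _
  refine Nat.le_of_mul_le_mul_right ?_ hpos
  have e1 : (p ^ t) ^ s = p ^ t * (p ^ t) ^ (s - 1) := by
    obtain ⟨k, rfl⟩ : ∃ k, s = k + 1 := ⟨s - 1, by omega⟩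
    rw [Nat.add_sub_cancel, pow_succ]
    ring
  have e2 : (p ^ t) ^ (s - 1) = p ^ t * (p ^ t) ^ (s - 2) := by
    obtain ⟨k, rfl⟩ : ∃ k, s = k + 2 := ⟨s - 2, by omega⟩
    rw [show k + 2 - 1 = k + 1 by omega, Nat.add_sub_cancel, pow_succ]
    ring
  calc G.card * p ^ t * (p ^ t) ^ (s - 1) = G.card * (p ^ t) ^ s := by rw [e1, mul_assoc]
    _ ≤ (∑ i₀, ∑ x ∈ S i₀, (E x).card) * (p ^ t) ^ s := Nat.mul_le_mul_right _ h4
    _ = ∑ i₀, ∑ x ∈ S i₀, (E x).card * (p ^ t) ^ s := by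
        rw [Finset.sum_mul]
        exact Finset.sum_congr rfl fun i _ => Finset.sum_mul _ _ _
    _ ≤ ∑ i₀, ∑ x ∈ S i₀, p ^ (t + e * s) * (p ^ t) ^ md s :=
        Finset.sum_le_sum fun i₀ _ => Finset.sum_le_sum fun x hx => hEcard i₀ x hx
    _ = ∑ i₀, (S i₀).card * (p ^ (t + e * s) * (p ^ t) ^ md s) := by
        refine Finset.sum_congr rfl fun i _ => ?_
        rw [Finset.sum_const, smul_eq_mul]
    _ ≤ ∑ i₀ : Fin s, (s * p ^ (2 * e + 1) * (p ^ t) ^ (s - 2)) *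
        (p ^ (t + e * s) * (p ^ t) ^ md s) :=
        Finset.sum_le_sum fun i₀ _ => Nat.mul_le_mul_right _ (hScard i₀)
    _ = s * ((s * p ^ (2 * e + 1) * (p ^ t) ^ (s - 2)) *
        (p ^ (t + e * s) * (p ^ t) ^ md s)) := by
        rw [Finset.sum_const, Finset.card_univ, Fintype.card_fin, smul_eq_mul]
    _ = s ^ 2 * p ^ (2 * e + 1 + e * s) * (p ^ t) ^ md s * (p ^ t) ^ (s - 1) := by
        rw [e2, pow_add p t (e * s), pow_add p (2 * e + 1) (e * s)]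
        ring

end Pool.Agent.H76.HFQ
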