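import Pool.Agent.H34.FQ.Targets

/-!
Row RZE: the zeros of `r` in the box are rare.
-/

set_option autoImplicit false

open Finset Pool.Agent.H32.RQ Pool.Agent.H34.FQ

namespace Pool.Agent.H76.HFQ

theorem pf_RZE (hGUP : T_GUP) : T_RZE := by
  classical
  intro n r K ε hn hdet hε
  obtain ⟨C, hC, hG⟩ := hGUP n (by omega)
  obtain ⟨M, hM⟩ := exists_nat_gt (2 * C * (2 * K + 1) ^ n / ε)
  have hM0 : (0 : ℝ) < M := lt_of_le_of_lt (by positivity) hM
  have hM1 : 1 ≤ M := by exact_mod_cast hM0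
  obtain ⟨X₁, hX₁⟩ := exists_nat_gt ((2 * C * (2 * M) ^ n / ε) ^ 2)
  refine ⟨max (max X₁ 1) ((gr r).det.natAbs + 1), fun X hX => ?_⟩
  have hXX : X₁ ≤ X := (le_max_left _ _).trans ((le_max_left _ _).trans hX)
  have hX1 : 1 ≤ X := (le_max_right _ _).trans ((le_max_left _ _).trans hX)
  have hXd : (gr r).det.natAbs + 1 ≤ X := (le_max_right _ _).trans hX
  have hMX : X ≤ M * X := Nat.le_mul_of_pos_left _ hM1
  obtain ⟨l, hl, h1, h2⟩ := Nat.exists_prime_lt_and_le_two_mul (M * X) (by positivity)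
  have hdl : ¬ (l : ℤ) ∣ (gr r).det := by
    intro h
    have h3 := Int.natAbs_dvd_natAbs.2 h
    rw [Int.natAbs_natCast] at h3
    have h4 := Nat.le_of_dvd (Int.natAbs_pos.2 hdet) h3
    omega
  have h3 := hG r l 1 (2 * K * X) 0 (fun _ => -((K * X : ℕ) : ℤ)) hl hdl le_rfl
    (by rw [Nat.dvd_one]; exact hl.one_lt.ne')
  have h4 : (((vb n (K * X)).filter fun v => qf r v = 0).card : ℝ) ≤
      C * ((((2 * K * X : ℕ) : ℝ) / (1 : ℕ) + 1) ^ n / l + Real.sqrt l ^ n) := by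
    refine le_trans ?_ h3
    exact_mod_cast Finset.card_le_card fun v hv => by
      rw [Finset.mem_filter] at hv ⊢
      unfold vb at hv
      rw [Fintype.mem_piFinset] at hv ⊢
      refine ⟨fun i => ?_, fun i => by simp, by rw [hv.2]; exact dvd_zero _⟩
      have := Finset.mem_Icc.1 (hv.1 i)
      rw [Finset.mem_Icc]
      push_cast at this ⊢
      constructor
      · exact this.1
      · nlinarith [this.2]
  refine h4.trans ?_
  have hXr : (1 : ℝ) ≤ X := by exact_mod_cast hX1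
  have hX0 : (0 : ℝ) < X := by linarith
  have hMr : (1 : ℝ) ≤ M := by exact_mod_cast hM1
  have hsX : 1 ≤ Real.sqrt X := by
    rw [Real.one_le_sqrt]
    exact hXr
  have hlr : ((M : ℝ) * X) < l := by exact_mod_cast h1
  have hl2 : (l : ℝ) ≤ 2 * (M * X) := by exact_mod_cast h2
  have hKr : (0 : ℝ) ≤ K := Nat.cast_nonneg _
  -- first term
  have h5 : (((2 * K * X : ℕ) : ℝ) / (1 : ℕ) + 1) ^ n / l ≤
      (2 * K + 1) ^ n / M * (X : ℝ) ^ (n - 1) := by
    have h6 : (((2 * K * X : ℕ) : ℝ) / (1 : ℕ) + 1) ≤ (2 * K + 1) * X := by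
      push_cast
      rw [div_one]
      nlinarith
    calc (((2 * K * X : ℕ) : ℝ) / (1 : ℕ) + 1) ^ n / l ≤ ((2 * K + 1) * X) ^ n / (M * X) := by
          refine div_le_div₀ (by positivity) (pow_le_pow_left₀ (by positivity) h6 n)
            (by positivity) hlr.le
      _ = (2 * K + 1) ^ n / M * (X : ℝ) ^ (n - 1) := by
          obtain ⟨k, rfl⟩ : ∃ k, n = k + 1 := ⟨n - 1, by omega⟩
          rw [Nat.add_sub_cancel, mul_pow, pow_succ (X : ℝ) k]
          field_simp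
  have h7 : C * ((2 * K + 1) ^ n / M * (X : ℝ) ^ (n - 1)) ≤ ε / 2 * (X : ℝ) ^ (n - 1) := by
    rw [← mul_assoc]
    refine mul_le_mul_of_nonneg_right ?_ (by positivity)
    rw [div_lt_iff₀ hε] at hM
    rw [← mul_div_assoc, div_le_iff₀ hM0]
    nlinarith
  -- second term
  have h8 : Real.sqrt l ^ n ≤ (2 * M) ^ n * Real.sqrt X ^ n := by
    rw [← mul_pow]
    refine pow_le_pow_left₀ (Real.sqrt_nonneg _) ?_ n
    calc Real.sqrt l ≤ Real.sqrt ((2 * M) * X) := Real.sqrt_le_sqrt (by linarith)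
      _ = Real.sqrt (2 * M) * Real.sqrt X := Real.sqrt_mul (by positivity) _
      _ ≤ 2 * M * Real.sqrt X := by
          refine mul_le_mul_of_nonneg_right ?_ (Real.sqrt_nonneg _)
          rw [Real.sqrt_le_left (by positivity)]
          nlinarith
  have h9 : C * ((2 * M) ^ n * Real.sqrt X ^ n) ≤ ε / 2 * (X : ℝ) ^ (n - 1) := by
    have h10 : 2 * C * (2 * M) ^ n / ε ≤ Real.sqrt X := by
      refine Real.le_sqrt_of_sq_le ?_
      exact hX₁.le.trans (by exact_mod_cast hXX)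
    rw [div_le_iff₀ hε] at h10
    obtain ⟨k, rfl⟩ : ∃ k, n = k + 3 := ⟨n - 3, by omega⟩
    have h11 : (X : ℝ) ^ (k + 3 - 1) = Real.sqrt X ^ (k + 3) * Real.sqrt X ^ (k + 1) := by
      rw [← pow_add, show k + 3 + (k + 1) = 2 * (k + 3 - 1) by omega, pow_mul,
        Real.sq_sqrt hX0.le]
    rw [h11]
    have h12 : Real.sqrt X ≤ Real.sqrt X ^ (k + 1) := by
      calc Real.sqrt X = Real.sqrt X ^ 1 := (pow_one _).symm
        _ ≤ Real.sqrt X ^ (k + 1) := pow_le_pow_right₀ hsX (by omega)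
    have h13 : (0 : ℝ) ≤ Real.sqrt X ^ (k + 3) := by positivity
    calc C * ((2 * M) ^ (k + 3) * Real.sqrt X ^ (k + 3)) =
        (2 * C * (2 * M) ^ (k + 3)) / 2 * Real.sqrt X ^ (k + 3) := by ring
      _ ≤ (Real.sqrt X ^ (k + 1) * ε) / 2 * Real.sqrt X ^ (k + 3) := by
          refine mul_le_mul_of_nonneg_right ?_ h13
          have := mul_le_mul_of_nonneg_right h12 hε.le
          linarith
      _ = ε / 2 * (Real.sqrt X ^ (k + 3) * Real.sqrt X ^ (k + 1)) := by ring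
  calc C * ((((2 * K * X : ℕ) : ℝ) / (1 : ℕ) + 1) ^ n / l + Real.sqrt l ^ n) ≤
      C * ((2 * K + 1) ^ n / M * (X : ℝ) ^ (n - 1) + (2 * M) ^ n * Real.sqrt X ^ n) :=
        mul_le_mul_of_nonneg_left (add_le_add h5 h8) hC.le
    _ = C * ((2 * K + 1) ^ n / M * (X : ℝ) ^ (n - 1)) + C * ((2 * M) ^ n * Real.sqrt X ^ n) := by
        rw [mul_add]
    _ ≤ ε / 2 * (X : ℝ) ^ (n - 1) + ε / 2 * (X : ℝ) ^ (n - 1) := add_le_add h7 h9
    _ = ε * (X : ℝ) ^ (n - 1) := by ring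

end Pool.Agent.H76.HFQ
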