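import Pool.Agent.H34.FQ.Targets
import Pool.Agent.H14.RQ.TRB

/-!
Row TB1: from the residues to the box (one form).
-/

set_option autoImplicit false

open Finset Pool.Agent.H32.RQ Pool.Agent.H34.FQ

namespace Pool.Agent.H76.HFQ

theorem fibre_le (s A M : ℕ) [NeZero M] (hM : M ≤ 2 * A + 1) (r : Mon s → ZMod M) :
    ((b1 s A).filter fun c => cf (ZMod M) c = r).card * M ^ md s ≤
      2 ^ md s * (2 * A + 1) ^ md s := by
  classical
  have h1 : ((b1 s A).filter fun c => cf (ZMod M) c = r) ⊆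
      Fintype.piFinset fun p =>
        (Finset.Icc (-(A : ℤ)) A).filter fun u : ℤ => (u : ZMod M) = r p := by
    intro c hc
    obtain ⟨h2, h3⟩ := Finset.mem_filter.1 hc
    rw [Fintype.mem_piFinset]
    intro p
    exact Finset.mem_filter.2 ⟨Fintype.mem_piFinset.1 h2 p, congrFun h3 p⟩
  have h2 := Finset.card_le_card h1
  rw [Fintype.card_piFinset] at h2
  have hp : ∀ m : ℕ, m ^ (md s) = ∏ _p : Mon s, m := by
    intro m
    rw [Finset.prod_const, Finset.card_univ]
  calc ((b1 s A).filter fun c => cf (ZMod M) c = r).card * M ^ (md s)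
      ≤ (∏ p : Mon s,
        ((Finset.Icc (-(A : ℤ)) A).filter fun u : ℤ => (u : ZMod M) = r p).card) *
          M ^ (md s) := Nat.mul_le_mul_right _ h2
    _ = ∏ p : Mon s,
        (((Finset.Icc (-(A : ℤ)) A).filter fun u : ℤ => (u : ZMod M) = r p).card * M) := by
        rw [hp M, ← Finset.prod_mul_distrib]
    _ ≤ ∏ _p : Mon s, (2 * (2 * A + 1)) :=
        Finset.prod_le_prod' fun p _ => Pool.Agent.H14.RQ.count_le A M hM (r p)
    _ = 2 ^ (md s) * (2 * A + 1) ^ (md s) := by
        rw [← hp, mul_pow]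

theorem pf_TB1 : T_TB1 := by
  classical
  intro s A M _ E hM
  have h1 : ((b1 s A).filter fun c => cf (ZMod M) c ∈ E).card =
      ∑ r ∈ E, ((b1 s A).filter fun c => cf (ZMod M) c = r).card := by
    have h2 := Finset.card_eq_sum_card_fiberwise (s := (b1 s A).filter fun c =>
      cf (ZMod M) c ∈ E) (f := fun c => cf (ZMod M) c) (t := E)
      (fun c hc => (Finset.mem_filter.1 hc).2)
    rw [h2]
    refine Finset.sum_congr rfl fun r hr => ?_
    congr 1
    ext c
    simp only [Finset.mem_filter]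
    constructor
    · rintro ⟨⟨a, -⟩, b⟩
      exact ⟨a, b⟩
    · rintro ⟨a, b⟩
      exact ⟨⟨a, by rw [b]; exact hr⟩, b⟩
  rw [h1, Finset.sum_mul, mul_comm (2 ^ (md s) * (2 * A + 1) ^ (md s)), ← smul_eq_mul
    E.card, ← Finset.sum_const]
  exact Finset.sum_le_sum fun r _ => fibre_le s A M hM r

end Pool.Agent.H76.HFQ
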