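import Pool.Agent.H34.FQ.Targets

/-!
Fibres of surjective additive maps.
-/

set_option autoImplicit false

open Finset Pool.Agent.H32.RQ Pool.Agent.H34.FQ

namespace Pool.Agent.H76.HFQ

theorem fib_card {G H : Type*} [AddCommGroup G] [Fintype G] [AddCommGroup H]
    [Fintype H] [DecidableEq H] (φ : G →+ H) (hφ : Function.Surjective φ) (h : H) :
    (univ.filter fun g => φ g = h).card * Fintype.card H = Fintype.card G := by
  have h1 : Fintype.card G = ∑ k : H, (univ.filter fun g => φ g = k).card := by
    rw [← Finset.card_univ]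
    exact Finset.card_eq_sum_card_fiberwise (fun g _ => Finset.mem_univ _)
  have h2 : ∀ k : H, (univ.filter fun g => φ g = k).card =
      (univ.filter fun g => φ g = h).card := fun k =>
    AddMonoidHom.card_fiber_eq_of_mem_range φ (hφ k) (hφ h)
  rw [h1, Finset.sum_congr rfl fun k _ => h2 k, Finset.sum_const, Finset.card_univ, smul_eq_mul,
    mul_comm]

/-- the value at `x` as an additive map -/
def qfL {R : Type} [CommRing R] {s : ℕ} (x : Fin s → R) : (Mon s → R) →ₗ[R] R where
  toFun f := qf f x
  map_add' f g := by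
    unfold qf
    rw [← Finset.sum_add_distrib]
    exact Finset.sum_congr rfl fun p _ => add_mul _ _ _
  map_smul' c f := by
    unfold qf
    rw [RingHom.id_apply, smul_eq_mul, Finset.mul_sum]
    exact Finset.sum_congr rfl fun p _ => mul_assoc _ _ _

theorem qfL_mul {R : Type} [CommRing R] {s : ℕ} (x : Fin s → R) (i j : Fin s) :
    x i * x j ∈ LinearMap.range (qfL x) := by
  classical
  have key : ∀ i j : Fin s, i ≤ j → x i * x j ∈ LinearMap.range (qfL x) := by
    intro i j h
    refine ⟨Pi.single ⟨(i, j), h⟩ 1, ?_⟩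
    change qf _ x = _
    unfold qf
    rw [Finset.sum_eq_single (⟨(i, j), h⟩ : Mon s)]
    · rw [Pi.single_eq_same, one_mul]
    · intro p _ hp
      rw [Pi.single_eq_of_ne hp, zero_mul]
    · intro h
      exact absurd (Finset.mem_univ _) h
  rcases le_total i j with h | h
  · exact key i j h
  · rw [mul_comm]
    exact key j i h

theorem qfL_surj {R : Type} [CommRing R] {s : ℕ} (x : Fin s → R) (hx : Prm x) :
    Function.Surjective (qfL x) := by
  obtain ⟨a, ha⟩ := hx
  rw [← LinearMap.range_eq_top, Ideal.eq_top_iff_one (LinearMap.range (qfL x))]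
  have h1 : (1 : R) = ∑ i, ∑ j, a i * a j * (x i * x j) := by
    have : (1 : R) = (∑ i, a i * x i) * ∑ j, a j * x j := by rw [ha, mul_one]
    rw [this, Finset.sum_mul_sum]
    exact Finset.sum_congr rfl fun i _ => Finset.sum_congr rfl fun j _ => by ring
  rw [h1]
  exact Submodule.sum_mem _ fun i _ => Submodule.sum_mem _ fun j _ =>
    Submodule.smul_mem _ (a i * a j) (qfL_mul x i j)

end Pool.Agent.H76.HFQ
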